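import Pool.Agent.MP_77f003_co.H49.USpec

/-!
The elimination process.
-/

namespace Pool.Agent.MP_77f003_co.H49

/-- The invariant of the elimination process after `k` eliminations. -/
structure KillInv (N D : ℕ) (δ : ℕ → ℕ → ℕ → ℕ) (k t₀ : ℕ) (A : Finset ℕ) (J : ℕ → Finset ℕ)
    (τ r sz : ℕ → ℕ) : Prop where
  sub : ∀ i ∈ A, i < N
  card : A.card + k = N
  far : ∀ i ∈ A, ∀ l ∈ A, i ≠ l → ∀ t < t₀, D < δ i l t
  dead : ∀ i ∈ A, ∀ j ∈ J i, j < N ∧ j ∉ A ∧ D ≤ r j ∧ 10 * r j ≤ D * 10 ^ k ∧ τ j ≤ t₀ ∧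
    δ i j (τ j) ≤ r j ∧ (∀ l ∈ A, ∀ t < τ j, D < δ l j t) ∧
    (τ j < t₀ → ∀ l ∈ A, i ≠ l → 10 * r j < δ i l (τ j))
  pair : ∀ i ∈ A, ∀ j ∈ J i, ∀ l ∈ J i, j ≠ l → (∀ t < τ j, t < τ l → D < δ j l t) ∧
    (τ j < τ l → 10 * r j < δ i l (τ j))
  size : ∀ i ∈ A, sz i ≤ 2 ^ (J i).card
  sum : ∑ i ∈ A, sz i = N

theorem KillInv.step {N D : ℕ} {δ : ℕ → ℕ → ℕ → ℕ} (hδ : ∀ i j t, δ i j t = δ j i t) {k t₀ : ℕ}
    {A : Finset ℕ} {J : ℕ → Finset ℕ} {τ r sz : ℕ → ℕ} (h : KillInv N D δ k t₀ A J τ r sz)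
    {a b t₁ : ℕ} (ha : a ∈ A) (hb : b ∈ A) (hab : a ≠ b) (ht : t₀ ≤ t₁)
    (hd : δ a b t₁ ≤ D * 10 ^ k) (hs : sz b ≤ sz a)
    (hmin : ∀ i ∈ A, ∀ l ∈ A, i ≠ l → ∀ t, t₀ ≤ t → t < t₁ → D * 10 ^ k < δ i l t) :
    KillInv N D δ (k + 1) t₁ (A.erase b) (Function.update J a (insert b (J a)))
      (Function.update τ b t₁) (Function.update r b (D * 10 ^ k))
      (Function.update sz a (sz a + sz b)) := by
  have hD : D ≤ D * 10 ^ k := Nat.le_mul_of_pos_right _ (by positivity)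
  have far : ∀ i ∈ A, ∀ l ∈ A, i ≠ l → ∀ t < t₁, D < δ i l t := fun i hi l hl hil t h1 => by
    rcases lt_or_ge t t₀ with h2 | h2
    · exact h.far i hi l hl hil t h2
    · exact hD.trans_lt (hmin i hi l hl hil t h2 h1)
  have ne : ∀ i ∈ A, ∀ j ∈ J i, j ≠ b := fun i hi j hj e => (h.dead i hi j hj).2.1 (e ▸ hb)
  have gap : ∀ i ∈ A, ∀ j ∈ J i, τ j < t₁ → ∀ l ∈ A, i ≠ l → 10 * r j < δ i l (τ j) := by
    intro i hi j hj h1 l hl hil
    obtain ⟨-, -, -, d4, d5, -, -, d8⟩ := h.dead i hi j hj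
    rcases d5.lt_or_eq with h2 | h2
    · exact d8 h2 l hl hil
    · exact d4.trans_lt (hmin i hi l hl hil _ h2.ge h1)
  have mem : ∀ i j, j ∈ Function.update J a (insert b (J a)) i → j ∈ J i ∨ (i = a ∧ j = b) := by
    intro i j hj
    by_cases e : i = a
    · rw [e, Function.update_self, Finset.mem_insert] at hj
      rw [e]
      exact hj.symm.imp_right fun h => ⟨rfl, h⟩
    · rw [Function.update_of_ne e] at hj
      exact Or.inl hj
  refine ⟨fun i hi => h.sub i (Finset.mem_of_mem_erase hi), ?_,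
    fun i hi l hl => far i (Finset.mem_of_mem_erase hi) l (Finset.mem_of_mem_erase hl),
    fun i hi j hj' => ?_, fun i hi j hj' l hl' hjl => ?_, fun i hi => ?_, ?_⟩
  · have := Finset.card_erase_add_one hb
    have := h.card
    omega
  · have hi' := Finset.mem_of_mem_erase hi
    rcases mem i j hj' with hj | ⟨rfl, rfl⟩
    · obtain ⟨d1, d2, d3, d4, d5, d6, d7, -⟩ := h.dead i hi' j hj
      rw [Function.update_of_ne (ne i hi' j hj), Function.update_of_ne (ne i hi' j hj)]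
      exact ⟨d1, fun h => d2 (Finset.mem_of_mem_erase h), d3,
        d4.trans (Nat.mul_le_mul_left _ (Nat.pow_le_pow_right (by norm_num) (Nat.le_succ k))),
        d5.trans ht, d6, fun l hl => d7 l (Finset.mem_of_mem_erase hl),
        fun h1 l hl => gap i hi' j hj h1 l (Finset.mem_of_mem_erase hl)⟩
    · rw [Function.update_self, Function.update_self]
      exact ⟨h.sub _ hb, Finset.notMem_erase _ _, hD, le_of_eq (by ring), le_rfl, hd,
        fun l hl => far l (Finset.mem_of_mem_erase hl) _ hb (Finset.ne_of_mem_erase hl),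
        fun h1 => absurd h1 (lt_irrefl _)⟩
  · have hi' := Finset.mem_of_mem_erase hi
    rcases mem i j hj' with hj | ⟨rfl, rfl⟩ <;> rcases mem i l hl' with hl | ⟨e, rfl⟩
    · rw [Function.update_of_ne (ne i hi' j hj), Function.update_of_ne (ne i hi' j hj),
        Function.update_of_ne (ne i hi' l hl)]
      exact h.pair i hi' j hj l hl hjl
    · rw [Function.update_of_ne hjl, Function.update_of_ne hjl, Function.update_self]
      exact ⟨fun t h1 _ => hδ l j t ▸ (h.dead i hi' j hj).2.2.2.2.2.2.1 l hb t h1,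
        fun h1 => gap i hi' j hj h1 l hb (Finset.ne_of_mem_erase hi)⟩
    · rw [Function.update_of_ne hjl.symm, Function.update_self]
      obtain ⟨-, -, -, -, d5, -, d7, -⟩ := h.dead i hi' l hl
      exact ⟨fun t _ h1 => d7 j hb t h1, fun h1 => absurd (h1.trans_le d5) (not_lt.2 ht)⟩
    · exact absurd rfl hjl
  · by_cases e : i = a
    · rw [e, Function.update_self, Function.update_self,
        Finset.card_insert_of_notMem fun hj => ne a ha b hj rfl, pow_succ]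
      have := h.size a ha
      omega
    · rw [Function.update_of_ne e, Function.update_of_ne e]
      exact h.size i (Finset.mem_of_mem_erase hi)
  · have ha' : a ∈ A.erase b := Finset.mem_erase.2 ⟨hab, ha⟩
    rw [Finset.sum_update_of_mem ha', ← h.sum, ← Finset.add_sum_erase A sz hb,
      ← Finset.add_sum_erase (A.erase b) sz ha', Finset.sdiff_singleton_eq_erase]
    ring

/-- The process stops in a state whose alive points stay far from each other. -/
theorem KillInv.stop {N D : ℕ} {δ : ℕ → ℕ → ℕ → ℕ} (hδ : ∀ i j t, δ i j t = δ j i t) (m : ℕ) :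
    ∀ {k t₀ : ℕ} {A : Finset ℕ} {J : ℕ → Finset ℕ} {τ r sz : ℕ → ℕ}, A.card = m →
    KillInv N D δ k t₀ A J τ r sz → ∃ k t₀ A J τ r sz, KillInv N D δ k t₀ A J τ r sz ∧
      ∀ i ∈ A, ∀ l ∈ A, i ≠ l → ∀ t, D < δ i l t := by
  induction m using Nat.strong_induction_on with
  | _ m ih =>
    intro k t₀ A J τ r sz hm h
    by_cases hex : ∃ t, t₀ ≤ t ∧ ∃ i ∈ A, ∃ l ∈ A, i ≠ l ∧ δ i l t ≤ D * 10 ^ k
    · classical
      obtain ⟨ht, a, ha, b, hb, hab, hd⟩ := Nat.find_spec hex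
      have hmin : ∀ i ∈ A, ∀ l ∈ A, i ≠ l → ∀ t, t₀ ≤ t → t < Nat.find hex →
          D * 10 ^ k < δ i l t := fun i hi l hl hil t h1 h2 =>
        not_le.1 fun h3 => Nat.find_min hex h2 ⟨h1, i, hi, l, hl, hil, h3⟩
      rcases le_total (sz b) (sz a) with hs | hs
      · exact ih _ (hm ▸ Finset.card_erase_lt_of_mem hb) rfl (h.step hδ ha hb hab ht hd hs hmin)
      · exact ih _ (hm ▸ Finset.card_erase_lt_of_mem ha) rfl
          (h.step hδ hb ha hab.symm ht (hδ a b _ ▸ hd) hs hmin)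
    · refine ⟨k, t₀, A, J, τ, r, sz, h, fun i hi l hl hil t => ?_⟩
      rcases lt_or_ge t t₀ with h2 | h2
      · exact h.far i hi l hl hil t h2
      · exact (Nat.le_mul_of_pos_right D (by positivity)).trans_lt
          (not_le.1 fun h3 => hex ⟨t, h2, i, hi, l, hl, hil, h3⟩)

theorem killSpec : KillSpec := by
  intro n D δ hδ
  have h0 : KillInv (n * 2 ^ n) D δ 0 0 (Finset.range (n * 2 ^ n)) (fun _ => ∅) (fun _ => 0)
      (fun _ => 0) fun _ => 1 :=
    ⟨fun i hi => Finset.mem_range.1 hi, by simp, by simp, by simp, by simp, by simp, by simp⟩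
  obtain ⟨k, t₀, A, J, τ, r, sz, h, hf⟩ := KillInv.stop hδ _ rfl h0
  by_cases hn : n ≤ A.card
  · exact Or.inl ⟨A, h.sub, hn, hf⟩
  obtain ⟨i, hi, hJ⟩ : ∃ i ∈ A, n ≤ (J i).card := by
    by_contra hc
    push Not at hc
    have h1 := Finset.sum_le_card_nsmul A sz (2 ^ n) fun i hi =>
      (h.size i hi).trans (Nat.pow_le_pow_right two_pos (hc i hi).le)
    rw [h.sum, smul_eq_mul] at h1
    exact hn (Nat.le_of_mul_le_mul_right h1 (by positivity))
  refine Or.inr ⟨i, h.sub i hi, J i, τ, r, fun hj => (h.dead i hi i hj).2.1 hi, hJ, fun j hj => ?_,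
    h.pair i hi⟩
  obtain ⟨d1, -, d3, d4, -, d6, d7, -⟩ := h.dead i hi j hj
  refine ⟨d1, d3, ?_, d6, d7 i hi⟩
  have := Nat.mul_le_mul_left D (Nat.pow_le_pow_right (show 0 < 10 by norm_num)
    (show k ≤ n * 2 ^ n from h.card ▸ Nat.le_add_left _ _))
  omega

end Pool.Agent.MP_77f003_co.H49
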